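import Mathlib

open Set Filter Topology

namespace Pool.Agent.Results.MP_6f7bab_an.Span

/-- d is a metric on the set S -/
def IsMetricOn {α : Type} (S : Set α) (d : α → α → ℝ) : Prop :=
  (∀ x ∈ S, ∀ y ∈ S, d x y = 0 ↔ x = y) ∧ (∀ x ∈ S, ∀ y ∈ S, d x y = d y x) ∧
    ∀ x ∈ S, ∀ y ∈ S, ∀ z ∈ S, d x z ≤ d x y + d y z

open Classical in
/-- the distance on sequences -/
noncomputable def D {m : ℕ} (d : Fin m → Fin m → ℝ) (k : ℕ) (x y : ℕ → Fin m) : ℝ :=
  if h : ∃ n, x n ≠ y n then d (x (Nat.find h)) (y (Nat.find h)) / (k : ℝ) ^ Nat.find h else 0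

/-- the Bowen distance -/
noncomputable def DT {m : ℕ} (d : Fin m → Fin m → ℝ) (k T : ℕ) (x y : ℕ → Fin m) : ℝ :=
  ⨆ t : Fin T, D d k (fun n => x (n + t)) (fun n => y (n + t))

/-- sizes of finite spanning sets -/
def spanSizes {m : ℕ} (X : Set (ℕ → Fin m)) (d : Fin m → Fin m → ℝ) (k : ℕ) (ε : ℝ) (T : ℕ) :
    Set ℕ :=
  {N | ∃ S : Finset (ℕ → Fin m), S.card = N ∧ (∀ y ∈ S, y ∈ X) ∧
    ∀ x ∈ X, ∃ y ∈ S, DT d k T x y ≤ ε}

def dn (a b : Fin 4) : ℕ :=
  if a = b then 0 else if (a = 2 ∧ b ≠ 3) ∨ (b = 2 ∧ a ≠ 3) then 1 else 2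

noncomputable def d0 (a b : Fin 4) : ℝ := dn a b

def X0 : Set (ℕ → Fin 4) :=
  {x | ∀ i j, i < j → x i = 3 → x j = 3 → ∃ n, j = i + 1 + 4 ^ n} ∩
    {x | ∀ i j t, i < t → t < j → x i = 3 → x j = 3 → x t = 0 ∨ x t = 1}

lemma d0_le (a b : Fin 4) : d0 a b ≤ 2 := by
  have : ∀ a b : Fin 4, dn a b ≤ 2 := by decide
  unfold d0; exact_mod_cast this a b

lemma d0_ge {a b : Fin 4} (h : a ≠ b) : 1 ≤ d0 a b := by
  have : ∀ a b : Fin 4, a ≠ b → 1 ≤ dn a b := by decide
  unfold d0; exact_mod_cast this a b h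

lemma d0_self (a : Fin 4) : d0 a a = 0 := by simp [d0, dn]

lemma d0_nonneg (a b : Fin 4) : 0 ≤ d0 a b := by unfold d0; positivity

lemma d0_symm (a b : Fin 4) : d0 a b = d0 b a := by
  have : ∀ a b : Fin 4, dn a b = dn b a := by decide
  unfold d0; rw [this]

lemma d0_tri (a b c : Fin 4) : d0 a c ≤ d0 a b + d0 b c := by
  have : ∀ a b c : Fin 4, dn a c ≤ dn a b + dn b c := by decide
  unfold d0; exact_mod_cast this a b c

lemma D_eq {x y : ℕ → Fin 4} {i : ℕ} (h1 : x i ≠ y i) (h2 : ∀ n < i, x n = y n) :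
    D d0 2 x y = d0 (x i) (y i) / 2 ^ i := by
  classical
  have h : ∃ n, x n ≠ y n := ⟨i, h1⟩
  have : Nat.find h = i := (Nat.find_eq_iff h).2 ⟨h1, fun n hn => by simpa using h2 n hn⟩
  unfold D
  rw [dif_pos h, this]
  simp only [Nat.cast_ofNat]

lemma D_cases (x y : ℕ → Fin 4) : (x = y ∧ D d0 2 x y = 0) ∨
    ∃ i, x i ≠ y i ∧ (∀ n < i, x n = y n) ∧ D d0 2 x y = d0 (x i) (y i) / 2 ^ i := by
  classical
  by_cases h : ∃ n, x n ≠ y n
  · exact Or.inr ⟨Nat.find h, Nat.find_spec h, fun n hn => by simpa using Nat.find_min h hn,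
      D_eq (Nat.find_spec h) fun n hn => by simpa using Nat.find_min h hn⟩
  · refine Or.inl ⟨funext fun n => by simpa using not_exists.1 h n, ?_⟩
    unfold D; rw [dif_neg h]

lemma D_ge {x y : ℕ → Fin 4} {i : ℕ} (h2 : ∀ n < i, x n = y n) :
    d0 (x i) (y i) / 2 ^ i ≤ D d0 2 x y := by
  rcases D_cases x y with ⟨rfl, h⟩ | ⟨j, h1, h3, h⟩
  · rw [h, d0_self]; simp
  · by_cases hi : x i = y i
    · rw [hi, d0_self, h, zero_div]; have := d0_nonneg (x j) (y j); positivity
    · rw [D_eq hi h2]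

lemma D_ge' {x y : ℕ → Fin 4} {i j : ℕ} (hj : j < i) (h1 : x j ≠ y j) :
    2 / 2 ^ i ≤ D d0 2 x y := by
  rcases D_cases x y with ⟨rfl, h⟩ | ⟨l, h2, h3, h⟩
  · exact absurd rfl h1
  · have hl : l + 1 ≤ i := by
      by_contra hh
      exact h1 (h3 j (by omega))
    rw [h, div_le_div_iff₀ (by positivity) (by positivity)]
    have a1 := d0_ge h2
    have a2 : (2 : ℝ) ^ (l + 1) ≤ 2 ^ i := pow_le_pow_right₀ (by norm_num) hl
    rw [pow_succ] at a2
    have a3 : (0 : ℝ) < 2 ^ i := by positivity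
    nlinarith

lemma D_nonneg (x y : ℕ → Fin 4) : 0 ≤ D d0 2 x y :=
  le_trans (by have := d0_nonneg (x 0) (y 0); positivity) (D_ge (i := 0) (by simp))

lemma D_metric : IsMetricOn X0 (D d0 2) := by
  refine ⟨fun x _ y _ => ?_, fun x _ y _ => ?_, fun x _ y _ z _ => ?_⟩
  · rcases D_cases x y with ⟨rfl, h⟩ | ⟨l, h2, h3, h⟩
    · simp [h]
    · have := d0_ge h2
      have hp : 0 < D d0 2 x y := by rw [h]; positivity
      exact ⟨fun h0 => absurd h0 hp.ne', fun h0 => absurd (congrFun h0 l) h2⟩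
  · rcases D_cases x y with ⟨rfl, h⟩ | ⟨l, h2, h3, h⟩
    · rfl
    · rw [h, D_eq h2.symm fun n hn => (h3 n hn).symm, d0_symm]
  · rcases D_cases x z with ⟨rfl, h⟩ | ⟨l, h2, h3, h⟩
    · rw [h]; exact add_nonneg (D_nonneg _ _) (D_nonneg _ _)
    · rw [h]
      by_cases hh : ∀ n < l, x n = y n
      · have a1 := D_ge hh
        have a2 := D_ge (x := y) (y := z) (i := l) fun n hn => (hh n hn).symm.trans (h3 n hn)
        refine le_trans ?_ (add_le_add a1 a2)
        rw [← add_div]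
        exact div_le_div_of_nonneg_right (d0_tri _ _ _) (by positivity)
      · push Not at hh
        obtain ⟨n, hn, h1⟩ := hh
        have a1 := D_ge' hn h1
        have a2 : d0 (x l) (z l) / 2 ^ l ≤ 2 / 2 ^ l :=
          div_le_div_of_nonneg_right (d0_le _ _) (by positivity)
        linarith [D_nonneg y z]

lemma D_le_one (x y : ℕ → Fin 4) : D d0 2 x y ≤ 1 ↔ d0 (x 0) (y 0) ≤ 1 := by
  constructor
  · intro h
    simpa using (D_ge (x := x) (y := y) (i := 0) (by simp)).trans h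
  · intro h0
    rcases D_cases x y with ⟨rfl, h⟩ | ⟨l, h2, h3, h⟩
    · rw [h]; norm_num
    · rw [h]
      rcases l with _ | l
      · simpa using h0
      · rw [div_le_one (by positivity), pow_succ]
        have : (1 : ℝ) ≤ 2 ^ l := one_le_pow₀ (by norm_num)
        linarith [d0_le (x (l + 1)) (y (l + 1))]

lemma DT_le_one (T : ℕ) (x y : ℕ → Fin 4) :
    DT d0 2 T x y ≤ 1 ↔ ∀ t < T, dn (x t) (y t) ≤ 1 := by
  have e : ∀ t : ℕ, D d0 2 (fun n => x (n + t)) (fun n => y (n + t)) ≤ 1 ↔ dn (x t) (y t) ≤ 1 :=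
    fun t => by
      rw [D_le_one]; simp only [zero_add, d0]; exact_mod_cast Iff.rfl
  constructor
  · intro h t ht
    exact (e t).1 ((le_ciSup (f := fun t : Fin T => D d0 2 (fun n => x (n + t))
      (fun n => y (n + t))) (Finite.bddAbove_range _) ⟨t, ht⟩).trans h)
  · intro h
    exact Real.iSup_le (fun t => (e t).2 (h t t.2)) zero_le_one

def cen (T p i j : ℕ) (w : Fin p → Fin 4) (n : ℕ) : Fin 4 :=
  if (n = i ∨ n = j) ∧ n < T then 3 else
    if h : i < n ∧ n < j ∧ n - i - 1 < p then w ⟨n - i - 1, h.2.2⟩ else 2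

lemma dn2 : ∀ a : Fin 4, a ≠ 3 → dn a 2 ≤ 1 := by decide

lemma upper (T p : ℕ) (hp : ∀ n, 4 ^ n + 2 ≤ T → 4 ^ n ≤ p) :
    ∃ N ∈ spanSizes X0 d0 2 1 T, N ≤ (T + 1) ^ 2 * 4 ^ p := by
  classical
  let S0 : Finset (ℕ → Fin 4) := Finset.univ.image
    fun q : Fin (T + 1) × Fin (T + 1) × (Fin p → Fin 4) => cen T p q.1 q.2.1 q.2.2
  refine ⟨_, ⟨S0.filter (· ∈ X0), rfl, fun y hy => (Finset.mem_filter.1 hy).2, fun x hx => ?_⟩, ?_⟩
  · simp only [DT_le_one, Finset.mem_filter]
    by_cases h2 : ∃ i j, i < j ∧ j < T ∧ x i = 3 ∧ x j = 3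
    · obtain ⟨i, j, hij, hj, hi3, hj3⟩ := h2
      obtain ⟨n, hn⟩ := hx.1 i j hij hi3 hj3
      have hg := hp n (by omega)
      have hmid : ∀ t, i < t → t < j → cen T p i j (fun s => x (i + 1 + s)) t = x t :=
        fun t h1 h2 => by
          unfold cen
          rw [if_neg (by omega), dif_pos ⟨h1, h2, by omega⟩]
          show x (i + 1 + (t - i - 1)) = x t
          rw [show i + 1 + (t - i - 1) = t by omega]
      have h3 : ∀ t, cen T p i j (fun s => x (i + 1 + s)) t = 3 → t = i ∨ t = j := fun t ht => by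
        by_contra hh
        by_cases h1 : i < t ∧ t < j
        · rw [hmid t h1.1 h1.2] at ht
          rcases hx.2 i j t h1.1 h1.2 hi3 hj3 with h | h <;> rw [h] at ht <;> exact absurd ht (by decide)
        · unfold cen at ht
          rw [if_neg (by omega), dif_neg (by omega)] at ht
          exact absurd ht (by decide)
      refine ⟨cen T p i j fun s => x (i + 1 + s), ⟨Finset.mem_image.2
        ⟨(⟨i, by omega⟩, ⟨j, by omega⟩, _), Finset.mem_univ _, rfl⟩, ?_, ?_⟩, fun t ht => ?_⟩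
      · intro a b hab ha hb
        have := h3 a ha
        have := h3 b hb
        exact ⟨n, by omega⟩
      · intro a b t hat htb ha hb
        have := h3 a ha
        have := h3 b hb
        rw [hmid t (by omega) (by omega)]
        exact hx.2 i j t (by omega) (by omega) hi3 hj3
      · by_cases h1 : i < t ∧ t < j
        · rw [hmid t h1.1 h1.2]; simp [dn]
        · unfold cen
          by_cases h4 : t = i ∨ t = j
          · rw [if_pos ⟨h4, ht⟩]
            rcases h4 with rfl | rfl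
            · rw [hi3]; decide
            · rw [hj3]; decide
          · rw [if_neg (by omega), dif_neg (by omega)]
            refine dn2 _ fun h5 => ?_
            rcases lt_or_gt_of_ne (show t ≠ i by omega) with h6 | h6
            · rcases hx.2 t j i h6 hij h5 hj3 with h | h <;> rw [h] at hi3 <;>
                exact absurd hi3 (by decide)
            · rcases hx.2 i t j hij (by omega) hi3 h5 with h | h <;> rw [h] at hj3 <;>
                exact absurd hj3 (by decide)
    · obtain ⟨i, hi, hi2⟩ : ∃ i ≤ T, ∀ t < T, x t = 3 ↔ t = i := by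
        by_cases h1 : ∃ i < T, x i = 3
        · obtain ⟨i, hi, hi3⟩ := h1
          refine ⟨i, hi.le, fun t ht => ⟨fun h => ?_, fun h => h ▸ hi3⟩⟩
          by_contra hne
          rcases lt_or_gt_of_ne hne with h6 | h6
          · exact h2 ⟨t, i, h6, hi, h, hi3⟩
          · exact h2 ⟨i, t, h6, ht, hi3, h⟩
        · exact ⟨T, le_rfl, fun t ht => ⟨fun h => absurd ⟨t, ht, h⟩ h1, fun h => by omega⟩⟩
      have h3 : ∀ t, cen T p i i (fun _ => 0) t = 3 → t = i := fun t ht => by
        by_contra hh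
        unfold cen at ht
        rw [if_neg (by omega), dif_neg (by omega)] at ht
        exact absurd ht (by decide)
      refine ⟨cen T p i i fun _ => 0, ⟨Finset.mem_image.2
        ⟨(⟨i, by omega⟩, ⟨i, by omega⟩, _), Finset.mem_univ _, rfl⟩, ?_, ?_⟩, fun t ht => ?_⟩
      · intro a b hab ha hb
        have := h3 a ha
        have := h3 b hb
        omega
      · intro a b t hat htb ha hb
        have := h3 a ha
        have := h3 b hb
        omega
      · unfold cen
        by_cases h4 : t = i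
        · rw [if_pos ⟨Or.inl h4, ht⟩, (hi2 t ht).2 h4]; decide
        · rw [if_neg (by omega), dif_neg (by omega)]
          exact dn2 _ fun h5 => h4 ((hi2 t ht).1 h5)
  · refine (Finset.card_filter_le _ _).trans (Finset.card_image_le.trans ?_)
    simp [pow_two, mul_assoc]

def wd (p : ℕ) (w : Fin p → Bool) (n : ℕ) : Fin 4 :=
  if n = 0 ∨ n = p + 1 then 3 else if h : n - 1 < p then (if w ⟨n - 1, h⟩ then 1 else 0) else 0

lemma wd_ne (p : ℕ) (w : Fin p → Bool) (n : ℕ) (h : ¬ (n = 0 ∨ n = p + 1)) :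
    wd p w n = 0 ∨ wd p w n = 1 := by
  unfold wd
  rw [if_neg h]
  split_ifs <;> simp

lemma wd_mem (n : ℕ) (w : Fin (4 ^ n) → Bool) : wd _ w ∈ X0 := by
  have h3 : ∀ t, wd _ w t = 3 → t = 0 ∨ t = 4 ^ n + 1 := fun t ht => by
    by_contra hh
    rcases wd_ne _ w t hh with h | h <;> rw [h] at ht <;> exact absurd ht (by decide)
  constructor
  · intro a b hab ha hb
    have := h3 a ha
    have := h3 b hb
    exact ⟨n, by omega⟩
  · intro a b t hat htb ha hb
    have := h3 a ha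
    have := h3 b hb
    exact wd_ne _ w t (by omega)

lemma lower (n N : ℕ) (hN : N ∈ spanSizes X0 d0 2 1 (4 ^ n + 2)) : 2 ^ 4 ^ n ≤ N := by
  classical
  obtain ⟨S, rfl, hS, h⟩ := hN
  choose f hf hf2 using fun w : Fin (4 ^ n) → Bool => h _ (wd_mem n w)
  simp only [DT_le_one] at hf2
  have k1 : ∀ b : Fin 4, dn 3 b ≤ 1 → b = 3 := by decide
  have k2 : ∀ a b : Fin 4, (a = 0 ∨ a = 1) → (b = 0 ∨ b = 1) → dn a b ≤ 1 → a = b := by decide
  have key : ∀ w (s : Fin (4 ^ n)), f w (s + 1) = if w s then 1 else 0 := fun w s => by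
    have a1 : f w 0 = 3 := k1 _ (by simpa [wd] using hf2 w 0 (Nat.succ_pos _))
    have a2 : f w (4 ^ n + 1) = 3 := k1 _ (by simpa [wd] using hf2 w (4 ^ n + 1) (by omega))
    have hs := s.2
    have a3 := (hS _ (hf w)).2 0 (4 ^ n + 1) (s + 1) (by omega) (by omega) a1 a2
    rw [← k2 _ _ (wd_ne _ w (s + 1) (by omega)) a3 (hf2 w (s + 1) (by omega))]
    unfold wd
    rw [if_neg (by omega), dif_pos (by omega)]
    rfl
  have hinj : Function.Injective f := fun v w hvw => funext fun s => by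
    have := key v s
    rw [hvw, key w s] at this
    revert this
    cases v s <;> cases w s <;> decide
  have := Finset.card_le_card_of_injOn (s := Finset.univ) (t := S) f (fun w _ => hf w) hinj.injOn
  simpa using this

lemma pw (T : ℕ) (h : 64 ≤ T) : (T + 1) ^ 8 ≤ 2 ^ T := by
  induction T, h using Nat.le_induction with
  | base => norm_num
  | succ T hT ih =>
    have h1 : 16 * (T + 1 + 1) ≤ 17 * (T + 1) := by omega
    have h2 := Nat.pow_le_pow_left h1 8
    rw [mul_pow, mul_pow] at h2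
    rw [pow_succ 2]
    generalize (T + 1 + 1) ^ 8 = A at *
    generalize (T + 1) ^ 8 = B at *
    omega

theorem result : ∃ (m : ℕ) (X : Set (ℕ → Fin m)) (d : Fin m → Fin m → ℝ) (k : ℕ) (ε : ℝ),
    X.Nonempty ∧ IsClosed X ∧ (∀ x ∈ X, (fun n => x (n + 1)) ∈ X) ∧ IsMetricOn univ d ∧ 1 < k ∧
    IsMetricOn X (D d k) ∧ 0 < ε ∧ (∀ T, (spanSizes X d k ε T).Nonempty) ∧
    liminf (fun T : ℕ => ((Real.log (sInf (spanSizes X d k ε T) : ℕ) / T : ℝ) : EReal)) atTop <
      limsup (fun T : ℕ => ((Real.log (sInf (spanSizes X d k ε T) : ℕ) / T : ℝ) : EReal))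
        atTop := by
  have hne : ∀ T, (spanSizes X0 d0 2 1 T).Nonempty := fun T => by
    obtain ⟨N, hN, -⟩ := upper T T fun n hn => by omega
    exact ⟨N, hN⟩
  have hl2 : 0 < Real.log 2 := Real.log_pos (by norm_num)
  refine ⟨4, X0, d0, 2, 1, ⟨_, wd_mem 0 fun _ => true⟩, ?_, ?_, ⟨fun a _ b _ => ?_,
    fun a _ b _ => d0_symm a b, fun a _ b _ c _ => d0_tri a b c⟩, one_lt_two, D_metric, one_pos,
    hne, ?_⟩
  · refine IsClosed.inter ?_ ?_
    · simp only [Set.ofPred_forall (p := fun (i : ℕ) (x : ℕ → Fin 4) => ∀ j, i < j → x i = 3 →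
        x j = 3 → ∃ n, j = i + 1 + 4 ^ n)]
      refine isClosed_iInter fun i => ?_
      simp only [Set.ofPred_forall (p := fun (j : ℕ) (x : ℕ → Fin 4) => i < j → x i = 3 →
        x j = 3 → ∃ n, j = i + 1 + 4 ^ n)]
      refine isClosed_iInter fun j => ?_
      exact (isClosed_discrete {q : Fin 4 × Fin 4 | i < j → q.1 = 3 → q.2 = 3 →
        ∃ n, j = i + 1 + 4 ^ n}).preimage (f := fun x : ℕ → Fin 4 => (x i, x j)) (by fun_prop)
    · have : {x : ℕ → Fin 4 | ∀ i j t, i < t → t < j → x i = 3 → x j = 3 → x t = 0 ∨ x t = 1} =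
          ⋂ i, ⋂ j, ⋂ t, {x | i < t → t < j → x i = 3 → x j = 3 → x t = 0 ∨ x t = 1} := by
        ext x; simp only [mem_ofPred_eq, mem_iInter]
      rw [this]
      refine isClosed_iInter fun i => isClosed_iInter fun j => isClosed_iInter fun t => ?_
      exact (isClosed_discrete {q : Fin 4 × Fin 4 × Fin 4 | i < t → t < j → q.1 = 3 → q.2.1 = 3 →
        q.2.2 = 0 ∨ q.2.2 = 1}).preimage (f := fun x : ℕ → Fin 4 => (x i, x j, x t)) (by fun_prop)
  · intro x hx
    refine ⟨fun i j hij hi hj => ?_, fun i j t h1 h2 hi hj =>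
      hx.2 (i + 1) (j + 1) (t + 1) (by omega) (by omega) hi hj⟩
    obtain ⟨n, hn⟩ := hx.1 (i + 1) (j + 1) (by omega) hi hj
    exact ⟨n, by omega⟩
  · refine ⟨fun h => ?_, fun h => h ▸ d0_self a⟩
    by_contra hh
    linarith [d0_ge hh]
  · have hpow : ∀ n : ℕ, n < 4 ^ n := fun n => Nat.lt_pow_self (by norm_num)
    refine lt_of_le_of_lt (b := ((3 / 4 * Real.log 2 : ℝ) : EReal)) ?_
      (lt_of_lt_of_le (b := ((7 / 8 * Real.log 2 : ℝ) : EReal)) ?_ ?_)
    · refine liminf_le_of_frequently_le' (frequently_atTop.2 fun a => ⟨4 ^ (a + 3), ?_, ?_⟩)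
      · have := hpow (a + 3); omega
      · obtain ⟨N, hN, h1⟩ := upper (4 ^ (a + 3)) (4 ^ (a + 2)) fun n hn =>
          Nat.pow_le_pow_right (by norm_num) (by
            have : 4 ^ n < 4 ^ (a + 3) := by omega
            have := (Nat.pow_lt_pow_iff_right (by norm_num : 1 < 4)).1 this
            omega)
        have h2 := (Nat.sInf_le hN).trans h1
        have h64 : 64 ≤ 4 ^ (a + 3) := by
          have : 0 < 4 ^ a := by positivity
          rw [pow_add]; omega
        have h3 := pw _ h64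
        have h4 : (sInf (spanSizes X0 d0 2 1 (4 ^ (a + 3)))) ^ 4 ≤ 2 ^ (3 * 4 ^ (a + 3)) := by
          refine (Nat.pow_le_pow_left h2 4).trans ?_
          rw [mul_pow, ← pow_mul, ← pow_mul, ← pow_succ, show 3 * 4 ^ (a + 3) =
            4 ^ (a + 3) + 2 * 4 ^ (a + 3) by ring, pow_add 2, pow_mul 2 2]
          exact Nat.mul_le_mul h3 le_rfl
        rw [EReal.coe_le_coe_iff, div_le_iff₀ (by positivity)]
        generalize sInf (spanSizes X0 d0 2 1 (4 ^ (a + 3))) = M at h4
        generalize 4 ^ (a + 3) = T at h4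
        rcases M.eq_zero_or_pos with rfl | hM
        · simp only [Nat.cast_zero, Real.log_zero]; positivity
        · have h5 : ((M : ℝ)) ^ 4 ≤ 2 ^ (3 * T) := by exact_mod_cast h4
          have h6 := Real.log_le_log (by positivity) h5
          rw [Real.log_pow, Real.log_pow] at h6
          push_cast at h6
          linarith
    · rw [EReal.coe_lt_coe_iff]; linarith
    · refine le_limsup_of_frequently_le' (frequently_atTop.2 fun a => ⟨4 ^ (a + 2) + 2, ?_, ?_⟩)
      · have := hpow (a + 2); omega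
      · have h1 := lower _ _ (Nat.sInf_mem (hne (4 ^ (a + 2) + 2)))
        have h16 : 16 ≤ 4 ^ (a + 2) := by
          have : 0 < 4 ^ a := by positivity
          rw [pow_add]; omega
        rw [EReal.coe_le_coe_iff, le_div_iff₀ (by positivity)]
        generalize sInf (spanSizes X0 d0 2 1 (4 ^ (a + 2) + 2)) = M at h1
        generalize 4 ^ (a + 2) = p at h1 h16
        have h5 : (2 : ℝ) ^ p ≤ M := by exact_mod_cast h1
        have h6 := Real.log_le_log (by positivity) h5
        rw [Real.log_pow] at h6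
        have h7 : (16 : ℝ) ≤ p := by exact_mod_cast h16
        push_cast
        nlinarith

end Pool.Agent.Results.MP_6f7bab_an.Span
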